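import Pool.Agent.H54.PMF.AllW
import Pool.Agent.H56.PMF.PO1
import Pool.Agent.H56.PMF.PTI
import Pool.Agent.H56.PMF.GON
import Pool.Agent.H56.PMF.EDG
import Pool.Agent.H56.PMF.CPX

/-!
# MP_def5ca_co: the theorem
-/

set_option autoImplicit false

open Pool.Agent.H54.PM

namespace Pool.Agent.H54.PMF

theorem a_PO1 : T_PO1 := Pool.Agent.H56.PMF.pf_PO1
theorem a_PTI : T_PTI := Pool.Agent.H56.PMF.pf_PTI
theorem a_GON : T_GON := Pool.Agent.H56.PMF.pf_GON a_PO1 a_PTI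
theorem a_EDG : T_EDG := Pool.Agent.H56.PMF.pf_EDG a_PO1 a_PTI
theorem a_CPX : T_CPX :=
  Pool.Agent.H56.PMF.pf_CPX a_PO1 (Pool.Agent.H79.PMF.pf_PO2 a_PO1) a_PTI a_EDG

theorem a_FIN : T_FIN := fin_of a_PO1 a_PTI a_GON a_EDG a_CPX

end Pool.Agent.H54.PMF
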