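import Pool.Agent.H54.PM.Targets

/-!
# MP_def5ca_co: row FIN
-/

set_option autoImplicit false

open Pool.Agent.H54.PM

open scoped symmDiff

namespace Pool.Agent.H54.PMF

theorem exists_q {p : ℕ} (W : Finset (Wd p)) : ∃ q : ℕ, ∀ g ∈ W, ∀ i, g i < q := by
  refine ⟨(∑ g ∈ W, ∑ i, g i) + 1, fun g hg i => ?_⟩
  have h1 : g i ≤ ∑ i, g i := Finset.single_le_sum (f := fun i => g i) (fun _ _ => Nat.zero_le _)
    (Finset.mem_univ i)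
  have h2 : ∑ i, g i ≤ ∑ g ∈ W, ∑ i, g i :=
    Finset.single_le_sum (f := fun g : Wd p => ∑ i, g i) (fun _ _ => Nat.zero_le _) hg
  omega

theorem pf_FIN (h1 : T_ORF) (h2 : T_NOF) (h3 : T_GEO) (h4 : T_TRF) : T_FIN := by
  intro p hp
  haveI : NeZero p := ⟨by omega⟩
  obtain ⟨N1, hN1⟩ := h1 p hp
  obtain ⟨N2, hN2⟩ := h2 p hp
  refine ⟨max N1 N2, fun X hX => ?_⟩
  obtain ⟨Y, hY⟩ : ∃ Y : ℕ, X = -(Y : ℤ) := ⟨X.natAbs, by omega⟩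
  have key : ∀ W : Finset (Wd p), Good W → cw W = -(Y : ℤ) →
      ∃ F : Finset (Finset (EuclideanSpace ℝ (Fin 5))), IsPM F ∧ IsConnected (Un F) ∧
        (∀ A ∈ F, IsGon p A) ∧ chi F = X ∧ (Ori F ↔ Bip W) := by
    intro W hW hc
    obtain ⟨q, hq⟩ := exists_q W
    obtain ⟨g1, g2, g3, g4, g5⟩ := h3 p q W (by omega) hW hq
    obtain ⟨F', f1, f2, f3, f4, f5⟩ := h4 (Sp p q) (fam q W) p g1 g2 g3
    exact ⟨F', f1, f2, f3, by rw [f4, g4, hc, hY], f5.trans g5⟩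
  refine ⟨?_, fun hev => ?_⟩
  · obtain ⟨W, w1, w2, w3⟩ := hN2 Y (by omega)
    obtain ⟨F, f1, f2, f3, f4, f5⟩ := key W w1 w3
    exact ⟨F, f1, f2, f3, f4, fun hh => w2 (f5.1 hh)⟩
  · obtain ⟨W, w1, w2, w3⟩ := hN1 Y (by omega) (by
      rw [hY] at hev
      exact (Int.even_coe_nat Y).1 (even_neg.1 hev))
    obtain ⟨F, f1, f2, f3, f4, f5⟩ := key W w1 w3
    exact ⟨F, f1, f2, f3, f4, f5.2 w2⟩

end Pool.Agent.H54.PMF
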