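import Pool.Agent.H54.PM.Targets

/-!
# Board `pmf_modules`, row LOC: the surface near a vertex
-/

set_option autoImplicit false

namespace Pool.Agent.H54.PMF

open Pool.Agent.H54.PM

section

variable {p : ℕ} [NeZero p] {W : Finset (Wd p)} {i : Fin p} {g : Wd p} {d : ℕ} [NeZero d]
  {h : Fin d → Wd p}

theorem val_add_one (hd : 4 ≤ d) (n : Fin d) :
    (n + 1).val = if n.val + 1 = d then 0 else n.val + 1 := by
  have h1 : (1 : Fin d).val = 1 := by
    have := Fin.val_one' d
    rw [this, Nat.mod_eq_of_lt (by omega)]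
  rw [Fin.val_add, h1]
  have := n.2
  split_ifs with hh
  · rw [hh, Nat.mod_self]
  · exact Nat.mod_eq_of_lt (by omega)

theorem par (hd : 4 ≤ d) (he : Even d) (n : Fin d) : Even (n + 1).val ↔ ¬ Even n.val := by
  rw [val_add_one hd]
  split_ifs with hh
  · have h1 : ¬ Even n.val := by
      intro h2
      have h3 : Even (n.val + 1) := by rw [hh]; exact he
      rw [Nat.even_add_one] at h3
      exact h3 h2
    simp [h1]
  · rw [Nat.even_add_one]

theorem add_one_ne (hd : 4 ≤ d) (n : Fin d) : n + 1 ≠ n := by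
  intro h1
  have h2 := congrArg Fin.val h1
  rw [val_add_one hd] at h2
  split_ifs at h2 with h3
  · omega
  · omega

/-- the even one of `n`, `n + 1` -/
def e0 (n : Fin d) : Fin d := if Even n.val then n else n + 1
/-- the odd one of `n`, `n + 1` -/
def o0 (n : Fin d) : Fin d := if Even n.val then n + 1 else n

theorem e0_even (hd : 4 ≤ d) (he : Even d) (n : Fin d) : Even (e0 n).val := by
  unfold e0
  split_ifs with h1
  · exact h1
  · exact (par hd he n).2 h1

theorem o0_odd (hd : 4 ≤ d) (he : Even d) (n : Fin d) : ¬ Even (o0 n).val := by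
  unfold o0
  split_ifs with h1
  · rw [par hd he n]
    exact not_not.2 h1
  · exact h1

theorem ag2_ag (hi : i ≠ i + 1) {k k' : Wd p} (h1 : ag2 i g k) (h2 : ag2 i g k') :
    (k i = k' i → ag (i + 1) k k') ∧ (k (i + 1) = k' (i + 1) → ag i k k') := by
  constructor
  · intro h3 t ht
    by_cases h4 : t = i
    · rw [h4]; exact h3
    · exact (h1 t h4 ht).symm.trans (h2 t h4 ht)
  · intro h3 t ht
    by_cases h4 : t = i + 1
    · rw [h4]; exact h3
    · exact (h1 t ht h4).symm.trans (h2 t ht h4)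

theorem evn (hd : 4 ≤ d) (hi : i ≠ i + 1) (hW : Good W) (hc : Cyc W i g d h) (n m : Fin d)
    (hm : Even m.val) : h n i = h m i ↔ m = e0 n := by
  have hmem : ∀ k, h k ∈ W ∧ ag2 i g (h k) := fun k => (hc.mem _).2 ⟨k, rfl⟩
  constructor
  · intro h1
    obtain ⟨m', rfl⟩ : ∃ m', m' + 1 = m := ⟨m - 1, sub_add_cancel _ _⟩
    have hm' : ¬ Even m'.val := (par hd hc.even m').1 hm
    have a1 := hc.snd m' hm'
    have a2 : ag (i + 1) (h (m' + 1)) (h n) := (ag2_ag hi (hmem _).2 (hmem _).2).1 h1.symm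
    obtain ⟨w, _, _, _, hw⟩ := hW.line (i + 1) (h (m' + 1)) (hmem _).1
    have b1 := hw (h m') (hmem _).1 (fun t ht => (a1 t ht).symm)
    have b2 := hw (h n) (hmem _).1 a2
    have b3 : h m' ≠ h (m' + 1) := fun hh => add_one_ne hd m' (hc.inj hh).symm
    have b4 : h m' = w := b1.resolve_left b3
    unfold e0
    rcases b2 with b2 | b2
    · have := hc.inj b2
      rw [this, if_pos hm]
    · rw [← b4] at b2
      have := hc.inj b2
      rw [this, if_neg hm']
  · rintro rfl
    unfold e0
    split_ifs with h1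
    · rfl
    · exact hc.snd n h1 i hi

theorem odn (hd : 4 ≤ d) (hi : i ≠ i + 1) (hW : Good W) (hc : Cyc W i g d h) (n m : Fin d)
    (hm : ¬ Even m.val) : h n (i + 1) = h m (i + 1) ↔ m = o0 n := by
  have hmem : ∀ k, h k ∈ W ∧ ag2 i g (h k) := fun k => (hc.mem _).2 ⟨k, rfl⟩
  constructor
  · intro h1
    obtain ⟨m', rfl⟩ : ∃ m', m' + 1 = m := ⟨m - 1, sub_add_cancel _ _⟩
    have hm' : Even m'.val := by
      rw [par hd hc.even m', not_not] at hm
      exact hm
    have a1 := hc.fst m' hm'
    have a2 : ag i (h (m' + 1)) (h n) := (ag2_ag hi (hmem _).2 (hmem _).2).2 h1.symm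
    obtain ⟨w, _, _, _, hw⟩ := hW.line i (h (m' + 1)) (hmem _).1
    have b1 := hw (h m') (hmem _).1 (fun t ht => (a1 t ht).symm)
    have b2 := hw (h n) (hmem _).1 a2
    have b3 : h m' ≠ h (m' + 1) := fun hh => add_one_ne hd m' (hc.inj hh).symm
    have b4 : h m' = w := b1.resolve_left b3
    unfold o0
    rcases b2 with b2 | b2
    · have := hc.inj b2
      rw [this, if_neg hm]
    · rw [← b4] at b2
      have := hc.inj b2
      rw [this, if_pos hm']
  · rintro rfl
    unfold o0
    split_ifs with h1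
    · exact hc.fst n h1 (i + 1) hi.symm
    · rfl

theorem ne_pair (n m : Fin d) (h1 : m ≠ n) (h2 : m ≠ n + 1) : m ≠ e0 n ∧ m ≠ o0 n := by
  unfold e0 o0
  split_ifs
  · exact ⟨h1, h2⟩
  · exact ⟨h2, h1⟩

theorem ne_pair' (n m : Fin d) (h1 : m ≠ e0 n) (h2 : m ≠ o0 n) : m ≠ n ∧ m ≠ n + 1 := by
  unfold e0 at h1
  unfold o0 at h2
  split_ifs at h1 h2
  · exact ⟨h1, h2⟩
  · exact ⟨h2, h1⟩

end

theorem cont_el {p : ℕ} (j : Fin p) : Continuous (el j) := by
  unfold el
  split_ifs
  · fun_prop
  · fun_prop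

theorem pf_LOC (h1 : T_PO1) (h3 : T_PO3) : T_LOC := by
  classical
  intro p _ q W hp hW hq i g hg d _ h hd hc
  have hi : i ≠ i + 1 := by
    intro hh
    have h5 : (1 : Fin p) = 0 := by
      have h6 : i + 0 = i + 1 := by rw [add_zero]; exact hh
      exact (add_left_cancel h6).symm
    have h7 := congrArg Fin.val h5
    rw [Fin.val_one', Nat.mod_eq_of_lt (by omega)] at h7
    simp at h7
  have hmem : ∀ k, h k ∈ W ∧ ag2 i g (h k) := fun k => (hc.mem _).2 ⟨k, rfl⟩
  have hlt : ∀ k j, h k j < q := fun k j => hq _ (hmem k).1 j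
  obtain ⟨A, hA, hA1, hA2⟩ := h3 p hp i
  -- the projection
  set P : Sp p q → (Fin d → ℝ) := fun z n =>
    if Even n.val then z (Sum.inr (i, ⟨h n i, hlt n i⟩))
    else z (Sum.inr (i + 1, ⟨h n (i + 1), hlt n (i + 1)⟩)) with hP
  have hPc : Continuous P := by
    refine continuous_pi fun n => ?_
    simp only [hP]
    split_ifs
    · fun_prop
    · fun_prop
  have hPpt : ∀ n x m, P (pt q (h n) x) m =
      if m = e0 n then el i x else if m = o0 n then el (i + 1) x else 0 := by
    intro n x m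
    by_cases hm : Even m.val
    · have e1 : P (pt q (h n) x) m = if h n i = h m i then el i x else 0 := by
        simp only [hP]
        rw [if_pos hm]
        rfl
      have e2 : m ≠ o0 n := fun hh => o0_odd hd hc.even n (hh ▸ hm)
      rw [e1, if_neg e2]
      by_cases e3 : m = e0 n
      · rw [if_pos ((evn hd hi hW hc n m hm).2 e3), if_pos e3]
      · rw [if_neg (fun hh => e3 ((evn hd hi hW hc n m hm).1 hh)), if_neg e3]
    · have e1 : P (pt q (h n) x) m = if h n (i + 1) = h m (i + 1) then el (i + 1) x else 0 := by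
        simp only [hP]
        rw [if_neg hm]
        rfl
      have e2 : m ≠ e0 n := fun hh => hm (hh ▸ e0_even hd hc.even n)
      rw [e1, if_neg e2]
      by_cases e3 : m = o0 n
      · rw [if_pos ((odn hd hi hW hc n m hm).2 e3), if_pos e3]
      · rw [if_neg (fun hh => e3 ((odn hd hi hW hc n m hm).1 hh)), if_neg e3]
  -- the plane coordinates
  set Y : (Fin d → ℝ) → ℝ × ℝ := fun a =>
    A (∑ n, (if Even n.val then a n else 0), ∑ n, (if Even n.val then 0 else a n)) with hY
  have hYc : Continuous Y := by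
    refine hA.comp (Continuous.prodMk ?_ ?_)
    · refine continuous_finset_sum _ fun n _ => ?_
      split_ifs
      · fun_prop
      · fun_prop
    · refine continuous_finset_sum _ fun n _ => ?_
      split_ifs
      · fun_prop
      · fun_prop
  have hsup : ∀ (a : Fin d → ℝ) (n : Fin d), (∀ m, m ≠ e0 n → m ≠ o0 n → a m = 0) →
      Y a = A (a (e0 n), a (o0 n)) := by
    intro a n ha
    simp only [hY]
    have s1 : ∑ m, (if Even m.val then a m else 0) = a (e0 n) := by
      rw [Finset.sum_eq_single (e0 n)]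
      · rw [if_pos (e0_even hd hc.even n)]
      · intro m _ hm
        split_ifs with h5
        · exact ha m hm fun hh => o0_odd hd hc.even n (hh ▸ h5)
        · rfl
      · intro hh
        exact absurd (Finset.mem_univ _) hh
    have s2 : ∑ m, (if Even m.val then 0 else a m) = a (o0 n) := by
      rw [Finset.sum_eq_single (o0 n)]
      · rw [if_neg (o0_odd hd hc.even n)]
      · intro m _ hm
        split_ifs with h5
        · rfl
        · exact ha m (fun hh => h5 (hh ▸ e0_even hd hc.even n)) hm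
      · intro hh
        exact absurd (Finset.mem_univ _) hh
    rw [s1, s2]
  -- the inverse
  set Th : (Fin d → ℝ) → Sp p q := fun a =>
    Sum.elim (fun k => if k = 0 then (Y a).1 else (Y a).2) (fun jc =>
      if jc.1 = i then ∑ n, (if Even n.val ∧ h n i = jc.2.val then a n else 0)
      else if jc.1 = i + 1 then ∑ n, (if ¬ Even n.val ∧ h n (i + 1) = jc.2.val then a n else 0)
      else if g jc.1 = jc.2.val then el jc.1 (Y a) else 0) with hTh
  have hThc : Continuous Th := by
    refine continuous_pi fun s => ?_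
    rcases s with k | jc
    · simp only [hTh, Sum.elim_inl]
      split_ifs
      · exact hYc.fst
      · exact hYc.snd
    · simp only [hTh, Sum.elim_inr]
      split_ifs
      · refine continuous_finset_sum _ fun n _ => ?_
        split_ifs
        · fun_prop
        · fun_prop
      · refine continuous_finset_sum _ fun n _ => ?_
        split_ifs
        · fun_prop
        · fun_prop
      · exact (cont_el _).comp hYc
      · fun_prop
  -- the key computation
  have hkey : ∀ (a : Fin d → ℝ) (n : Fin d), (∀ m, m ≠ e0 n → m ≠ o0 n → a m = 0) →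
      a (e0 n) = el i (Y a) ∧ a (o0 n) = el (i + 1) (Y a) ∧ Th a = pt q (h n) (Y a) := by
    intro a n ha
    have y1 := hsup a n ha
    have y2 := hA2 (a (e0 n), a (o0 n))
    rw [← y1] at y2
    have z1 : el i (Y a) = a (e0 n) := y2.1
    have z2 : el (i + 1) (Y a) = a (o0 n) := y2.2
    refine ⟨z1.symm, z2.symm, ?_⟩
    funext s
    rcases s with k | ⟨j, c⟩
    · rfl
    · have r1 : pt q (h n) (Y a) (Sum.inr (j, c)) = if h n j = c.val then el j (Y a) else 0 := rfl
      rw [r1]
      simp only [hTh, Sum.elim_inr]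
      by_cases hj : j = i
      · subst hj
        rw [if_pos rfl, Finset.sum_eq_single (e0 n)]
        · have r2 : h n j = h (e0 n) j :=
            (evn hd hi hW hc n (e0 n) (e0_even hd hc.even n)).2 rfl
          rw [r2, z1]
          by_cases r3 : h (e0 n) j = c.val
          · rw [if_pos ⟨e0_even hd hc.even n, r3⟩, if_pos r3]
          · rw [if_neg (fun hh => r3 hh.2), if_neg r3]
        · intro m _ hm
          split_ifs with h5
          · exact ha m hm fun hh => o0_odd hd hc.even n (hh ▸ h5.1)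
          · rfl
        · intro hh
          exact absurd (Finset.mem_univ _) hh
      · rw [if_neg hj]
        by_cases hj' : j = i + 1
        · subst hj'
          rw [if_pos rfl, Finset.sum_eq_single (o0 n)]
          · have r2 : h n (i + 1) = h (o0 n) (i + 1) :=
              (odn hd hi hW hc n (o0 n) (o0_odd hd hc.even n)).2 rfl
            rw [r2, z2]
            by_cases r3 : h (o0 n) (i + 1) = c.val
            · rw [if_pos ⟨o0_odd hd hc.even n, r3⟩, if_pos r3]
            · rw [if_neg (fun hh => r3 hh.2), if_neg r3]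
          · intro m _ hm
            split_ifs with h5
            · exact ha m (fun hh => h5.1 (hh ▸ e0_even hd hc.even n)) hm
            · rfl
          · intro hh
            exact absurd (Finset.mem_univ _) hh
        · rw [if_neg hj', (hmem n).2 j hj hj']
  have hthP : ∀ n x, Y (P (pt q (h n) x)) = x ∧ Th (P (pt q (h n) x)) = pt q (h n) x := by
    intro n x
    have u1 : ∀ m, m ≠ e0 n → m ≠ o0 n → P (pt q (h n) x) m = 0 := by
      intro m hm hm'
      rw [hPpt, if_neg hm, if_neg hm']
    have u2 : Y (P (pt q (h n) x)) = x := by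
      rw [hsup _ n u1, hPpt, hPpt, if_pos rfl, if_neg, if_pos rfl]
      · exact hA1 x
      · intro hh
        exact o0_odd hd hc.even n (hh ▸ e0_even hd hc.even n)
    refine ⟨u2, ?_⟩
    rw [(hkey _ n u1).2.2, u2]
  have hPTh : ∀ (a : Fin d → ℝ) (n : Fin d), (∀ m, m ≠ e0 n → m ≠ o0 n → a m = 0) →
      P (Th a) = a := by
    intro a n ha
    obtain ⟨k1, k2, k3⟩ := hkey a n ha
    rw [k3]
    funext m
    rw [hPpt]
    split_ifs with c1 c2
    · rw [c1, k1]
    · rw [c2, k2]
    · exact (ha m c1 c2).symm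
  have hfan : ∀ n x, x ∈ PP p → P (pt q (h n) x) ∈ Fan d := by
    intro n x hx
    have hx' := ((h1 p hp).2 x).1 hx
    refine ⟨fun m => ?_, n, fun m hm hm' => ?_⟩
    · rw [hPpt]
      split_ifs
      · exact hx' _
      · exact hx' _
      · exact le_rfl
    · obtain ⟨w1, w2⟩ := ne_pair n m hm hm'
      rw [hPpt, if_neg w1, if_neg w2]
  have hfan' : ∀ a ∈ Fan d, ∃ n : Fin d, ∀ m, m ≠ e0 n → m ≠ o0 n → a m = 0 := by
    rintro a ⟨_, n, hn⟩
    refine ⟨n, fun m hm hm' => ?_⟩
    obtain ⟨w1, w2⟩ := ne_pair' n m hm hm'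
    exact hn m w1 w2
  -- points of the union
  have hfc : ∀ k : Wd p, body (fc q k) = pt q k '' PP p := by
    intro k
    have lin : ∀ (j : Fin p), ∃ (f : (ℝ × ℝ) →ₗ[ℝ] ℝ) (c : ℝ), ∀ x, el j x = f x + c := by
      intro j
      by_cases hj : j.val + 1 < p
      · refine ⟨LinearMap.snd ℝ ℝ ℝ - (2 * (j.val : ℝ) + 1) • LinearMap.fst ℝ ℝ ℝ,
          (j.val : ℝ) * (j.val + 1), fun x => ?_⟩
        unfold el
        rw [if_pos hj]
        simp
      · refine ⟨((p : ℝ) - 1) • LinearMap.fst ℝ ℝ ℝ - LinearMap.snd ℝ ℝ ℝ, 0, fun x => ?_⟩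
        unfold el
        rw [if_neg hj]
        simp
    choose f c hf using lin
    let Lk : (ℝ × ℝ) →ₗ[ℝ] Sp p q := LinearMap.pi fun s => Sum.rec
      (fun k' => if k' = 0 then LinearMap.fst ℝ ℝ ℝ else LinearMap.snd ℝ ℝ ℝ)
      (fun jc => if k jc.1 = jc.2.val then f jc.1 else 0) s
    let vk : Sp p q := Sum.elim (fun _ => 0) (fun jc => if k jc.1 = jc.2.val then c jc.1 else 0)
    let T : (ℝ × ℝ) →ᵃ[ℝ] Sp p q := Lk.toAffineMap + AffineMap.const ℝ (ℝ × ℝ) vk
    have hT : ∀ x, T x = pt q k x := by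
      intro x
      funext s
      rcases s with k' | jc
      · have t1 : T x (Sum.inl k') = (if k' = 0 then LinearMap.fst ℝ ℝ ℝ
            else LinearMap.snd ℝ ℝ ℝ) x + 0 := rfl
        rw [t1, add_zero]
        have t2 : pt q k x (Sum.inl k') = if k' = 0 then x.1 else x.2 := rfl
        rw [t2]
        split_ifs <;> rfl
      · have t1 : T x (Sum.inr jc) = (if k jc.1 = jc.2.val then f jc.1 else 0) x +
            (if k jc.1 = jc.2.val then c jc.1 else 0) := rfl
        rw [t1]
        have t2 : pt q k x (Sum.inr jc) = if k jc.1 = jc.2.val then el jc.1 x else 0 := rfl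
        rw [t2]
        split_ifs
        · rw [hf]
        · simp
    have e1 : ((fc q k : Finset (Sp p q)) : Set (Sp p q)) = T '' Set.range (wv (p := p)) := by
      unfold fc
      rw [Finset.coe_image, Finset.coe_univ, Set.image_univ, ← Set.range_comp]
      congr 1
      funext t
      exact (hT _).symm
    unfold body PP
    rw [e1, ← AffineMap.image_convexHull]
    have e2 : (T : ℝ × ℝ → Sp p q) = pt q k := funext hT
    rw [e2]
  have hUn : ∀ z : Sp p q, z ∈ Un (fam q W) ↔ ∃ k ∈ W, ∃ x ∈ PP p, z = pt q k x := by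
    intro z
    unfold Un fam
    simp only [Finset.mem_image, Set.mem_iUnion, exists_prop]
    constructor
    · rintro ⟨B, ⟨k, hk, rfl⟩, hz⟩
      rw [hfc] at hz
      obtain ⟨x, hx, rfl⟩ := hz
      exact ⟨k, hk, x, hx, rfl⟩
    · rintro ⟨k, hk, x, hx, rfl⟩
      exact ⟨_, ⟨k, hk, rfl⟩, by rw [hfc]; exact ⟨x, hx, rfl⟩⟩
  have hNb : ∀ z : Sp p q, z ∈ Un (fam q W) → (z ∈ Nb q W i g ↔
      ∀ j, j ≠ i → j ≠ i + 1 → 0 < z (Sum.inr (j, ⟨g j, hq g hg j⟩))) := by
    intro z hz
    rw [hUn] at hz
    constructor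
    · rintro ⟨k, hk, hgk, x, hx, hpos, rfl⟩ j hj hj'
      have e1 : pt q k x (Sum.inr (j, ⟨g j, hq g hg j⟩)) = if k j = g j then el j x else 0 := rfl
      rw [e1, if_pos (hgk j hj hj').symm]
      exact hpos j hj hj'
    · intro hpos
      obtain ⟨k, hk, x, hx, rfl⟩ := hz
      have e1 : ∀ j, pt q k x (Sum.inr (j, ⟨g j, hq g hg j⟩)) =
          if k j = g j then el j x else 0 := fun j => rfl
      have e2 : ∀ j, j ≠ i → j ≠ i + 1 → k j = g j := by
        intro j hj hj'
        by_contra hne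
        have := hpos j hj hj'
        rw [e1, if_neg hne] at this
        exact lt_irrefl _ this
      refine ⟨k, hk, fun j hj hj' => (e2 j hj hj').symm, x, hx, fun j hj hj' => ?_, rfl⟩
      have := hpos j hj hj'
      rw [e1, if_pos (e2 j hj hj')] at this
      exact this
  -- the neighbourhood in terms of the enumeration
  have hNb' : ∀ z ∈ Nb q W i g, ∃ n, ∃ x ∈ PP p, (∀ j, j ≠ i → j ≠ i + 1 → 0 < el j x) ∧
      z = pt q (h n) x := by
    rintro z ⟨k, hk, hgk, x, hx, hpos, rfl⟩
    obtain ⟨n, rfl⟩ := (hc.mem k).1 ⟨hk, hgk⟩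
    exact ⟨n, x, hx, hpos, rfl⟩
  have hne : (0 : Fin d → ℝ) ∈ Fan d := ⟨fun _ => le_rfl, 0, fun _ _ _ => rfl⟩
  have hP0 : ∃ x, x ∈ PP p := ⟨wv 0, subset_convexHull ℝ _ ⟨0, rfl⟩⟩
  obtain ⟨x0, hx0⟩ := hP0
  have hz0 : pt q g x0 ∈ Un (fam q W) := (hUn _).2 ⟨g, hg, x0, hx0, rfl⟩
  let F : Un (fam q W) → Fan d := fun z => if hz : P z.1 ∈ Fan d then ⟨P z.1, hz⟩ else ⟨0, hne⟩
  let G : Fan d → Un (fam q W) := fun a =>
    if ha : Th a.1 ∈ Un (fam q W) then ⟨Th a.1, ha⟩ else ⟨pt q g x0, hz0⟩
  let src : Set (Un (fam q W)) := {z | z.1 ∈ Nb q W i g}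
  let tgt : Set (Fan d) := {a | ∀ j, j ≠ i → j ≠ i + 1 → 0 < el j (Y a.1)}
  have hF : ∀ z ∈ src, (F z).1 = P z.1 := by
    intro z hz
    obtain ⟨n, x, hx, _, hzx⟩ := hNb' z.1 hz
    have : P z.1 ∈ Fan d := by rw [hzx]; exact hfan n x hx
    simp only [F, dif_pos this]
  have hTU : ∀ a ∈ tgt, ∃ n, Y a.1 ∈ PP p ∧ Th a.1 = pt q (h n) (Y a.1) := by
    intro a ha
    obtain ⟨n, hn⟩ := hfan' a.1 a.2
    obtain ⟨k1, k2, k3⟩ := hkey a.1 n hn
    refine ⟨n, ?_, k3⟩
    rw [(h1 p hp).2]
    intro j
    by_cases hj : j = i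
    · rw [hj, ← k1]; exact a.2.1 _
    by_cases hj' : j = i + 1
    · rw [hj', ← k2]; exact a.2.1 _
    exact (ha j hj hj').le
  have hG : ∀ a ∈ tgt, (G a).1 = Th a.1 := by
    intro a ha
    obtain ⟨n, hn, hn'⟩ := hTU a ha
    have : Th a.1 ∈ Un (fam q W) := by
      rw [hn']
      exact (hUn _).2 ⟨h n, (hmem n).1, _, hn, rfl⟩
    simp only [G, dif_pos this]
  have hsrc : IsOpen src := by
    have hs : src = ⋂ j : Fin p, {z : Un (fam q W) | j = i ∨ j = i + 1 ∨
        0 < z.1 (Sum.inr (j, ⟨g j, hq g hg j⟩))} := by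
      ext z
      simp only [Set.mem_iInter, Set.mem_setOf_eq]
      refine (hNb z.1 z.2).trans ⟨fun hz j => ?_, fun hz j hj hj' => ?_⟩
      · by_cases hj : j = i
        · exact Or.inl hj
        by_cases hj' : j = i + 1
        · exact Or.inr (Or.inl hj')
        exact Or.inr (Or.inr (hz j hj hj'))
      · rcases hz j with h5 | h5 | h5
        · exact absurd h5 hj
        · exact absurd h5 hj'
        · exact h5
    rw [hs]
    refine isOpen_iInter_of_finite fun j => ?_
    by_cases hj : j = i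
    · have h6 : {z : Un (fam q W) | j = i ∨ j = i + 1 ∨
          0 < z.1 (Sum.inr (j, ⟨g j, hq g hg j⟩))} = Set.univ := by
        ext z
        simp only [Set.mem_setOf_eq, hj, true_or, Set.mem_univ]
      rw [h6]
      exact isOpen_univ
    by_cases hj' : j = i + 1
    · have h6 : {z : Un (fam q W) | j = i ∨ j = i + 1 ∨
          0 < z.1 (Sum.inr (j, ⟨g j, hq g hg j⟩))} = Set.univ := by
        ext z
        refine ⟨fun _ => Set.mem_univ _, fun _ => Or.inr (Or.inl hj')⟩
      rw [h6]
      exact isOpen_univ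
    have h6 : {z : Un (fam q W) | j = i ∨ j = i + 1 ∨ 0 < z.1 (Sum.inr (j, ⟨g j, hq g hg j⟩))} =
        {z : Un (fam q W) | 0 < z.1 (Sum.inr (j, ⟨g j, hq g hg j⟩))} := by
      ext z
      simp only [Set.mem_setOf_eq, hj, hj', false_or]
    rw [h6]
    exact isOpen_lt continuous_const ((continuous_apply _).comp continuous_subtype_val)
  have htgt : IsOpen tgt := by
    have hs : tgt = ⋂ j : Fin p, {a : Fan d | j = i ∨ j = i + 1 ∨ 0 < el j (Y a.1)} := by
      ext a
      simp only [Set.mem_iInter, Set.mem_setOf_eq]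
      refine ⟨fun hz j => ?_, fun hz j hj hj' => ?_⟩
      · by_cases hj : j = i
        · exact Or.inl hj
        by_cases hj' : j = i + 1
        · exact Or.inr (Or.inl hj')
        exact Or.inr (Or.inr (hz j hj hj'))
      · rcases hz j with h5 | h5 | h5
        · exact absurd h5 hj
        · exact absurd h5 hj'
        · exact h5
    rw [hs]
    refine isOpen_iInter_of_finite fun j => ?_
    by_cases hj : j = i
    · have h6 : {a : Fan d | j = i ∨ j = i + 1 ∨ 0 < el j (Y a.1)} = Set.univ := by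
        ext z
        exact ⟨fun _ => Set.mem_univ _, fun _ => Or.inl hj⟩
      rw [h6]
      exact isOpen_univ
    by_cases hj' : j = i + 1
    · have h6 : {a : Fan d | j = i ∨ j = i + 1 ∨ 0 < el j (Y a.1)} = Set.univ := by
        ext z
        exact ⟨fun _ => Set.mem_univ _, fun _ => Or.inr (Or.inl hj')⟩
      rw [h6]
      exact isOpen_univ
    have h6 : {a : Fan d | j = i ∨ j = i + 1 ∨ 0 < el j (Y a.1)} =
        {a : Fan d | 0 < el j (Y a.1)} := by
      ext z
      simp only [Set.mem_setOf_eq, hj, hj', false_or]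
    rw [h6]
    exact isOpen_lt continuous_const ((cont_el j).comp (hYc.comp continuous_subtype_val))
  have hFc : ContinuousOn F src := by
    rw [Topology.IsInducing.subtypeVal.continuousOn_iff]
    refine (hPc.comp continuous_subtype_val).continuousOn.congr ?_
    intro z hz
    exact hF z hz
  have hGc : ContinuousOn G tgt := by
    rw [Topology.IsInducing.subtypeVal.continuousOn_iff]
    refine (hThc.comp continuous_subtype_val).continuousOn.congr ?_
    intro a ha
    exact hG a ha
  have hm1 : ∀ z ∈ src, F z ∈ tgt := by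
    intro z hz
    obtain ⟨n, x, hx, hpos, hzx⟩ := hNb' z.1 hz
    intro j hj hj'
    rw [hF z hz, hzx, (hthP n x).1]
    exact hpos j hj hj'
  have hm2 : ∀ a ∈ tgt, G a ∈ src := by
    intro a ha
    obtain ⟨n, hn, hn'⟩ := hTU a ha
    show (G a).1 ∈ Nb q W i g
    rw [hG a ha, hn']
    exact ⟨h n, (hmem n).1, (hmem n).2, _, hn, ha, rfl⟩
  have hl : ∀ z ∈ src, G (F z) = z := by
    intro z hz
    obtain ⟨n, x, hx, hpos, hzx⟩ := hNb' z.1 hz
    apply Subtype.ext
    rw [hG _ (hm1 z hz), hF z hz, hzx, (hthP n x).2]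
  have hr : ∀ a ∈ tgt, F (G a) = a := by
    intro a ha
    apply Subtype.ext
    rw [hF _ (hm2 a ha), hG a ha]
    obtain ⟨n', hn''⟩ := hfan' a.1 a.2
    exact hPTh a.1 n' hn''
  exact ⟨{ toFun := F, invFun := G, source := src, target := tgt,
           map_source' := fun z hz => hm1 z hz, map_target' := fun a ha => hm2 a ha,
           left_inv' := fun z hz => hl z hz, right_inv' := fun a ha => hr a ha,
           open_source := hsrc, open_target := htgt,
           continuousOn_toFun := hFc, continuousOn_invFun := hGc }, fun x hx => hx⟩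

end Pool.Agent.H54.PMF
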