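import Pool.Agent.H54.PM.Targets

/-!
# MP_def5ca_co: row MFD
-/

set_option autoImplicit false

open Pool.Agent.H54.PM

namespace Pool.Agent.H54.PMF

theorem pf_MFD (h1 : T_PO1) (h2 : T_PO2) (h4 : T_PTI) (h5 : T_FAN) (h6 : T_CYC) (h7 : T_LOC) :
    T_MFD := by
  classical
  intro p _ q W hp hW hq x
  have hz : ∃ g ∈ W, ∃ y ∈ PP p, x.1 = pt q g y := by
    have := x.2
    unfold Un fam at this
    simp only [Finset.mem_image, Set.mem_iUnion, exists_prop] at this
    obtain ⟨B, ⟨g, hg, rfl⟩, hB⟩ := this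
    rw [(h4 p q hp).2.1 g] at hB
    obtain ⟨y, hy, hy'⟩ := hB
    exact ⟨g, hg, y, hy, hy'.symm⟩
  obtain ⟨g, hg, y, hy, hxy⟩ := hz
  have hpos : ∀ j, 0 ≤ el j y := ((h1 p hp).2 y).1 hy
  obtain ⟨i, hi⟩ : ∃ i : Fin p, ∀ j, j ≠ i → j ≠ i + 1 → 0 < el j y := by
    by_cases hall : ∀ j : Fin p, 0 < el j y
    · exact ⟨0, fun j _ _ => hall j⟩
    · push Not at hall
      obtain ⟨j0, hj0⟩ := hall
      have hj0' : el j0 y = 0 := le_antisymm hj0 (hpos j0)
      by_cases hex : ∃ j1 : Fin p, j1 ≠ j0 ∧ el j1 y = 0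
      · obtain ⟨j1, hj1, hj1'⟩ := hex
        have key : ∀ a b : Fin p, b = a + 1 → el a y = 0 → el b y = 0 →
            ∀ j, j ≠ a → j ≠ a + 1 → 0 < el j y := by
          intro a b hab ha hb j hja hjb
          rcases (hpos j).lt_or_eq with h | h
          · exact h
          exfalso
          have hne : a ≠ b := by
            intro hh
            rw [← hh] at hab
            have h5 : (0 : Fin p) = 1 := by
              have h6 : a + 0 = a + 1 := by rw [add_zero]; exact hab
              exact add_left_cancel h6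
            have h7 := congrArg Fin.val h5
            rw [Fin.val_one', Nat.mod_eq_of_lt (by omega)] at h7
            simp at h7
          rcases (h2 p hp y hy).2 a b hne ha hb with c | c
          · rw [c.2] at h
            rcases ((h1 p hp).1 j b).2.1 h.symm with c' | c'
            · exact hjb (c'.symm.trans hab)
            · rw [hab] at c'
              exact hja (add_right_cancel c').symm
          · rw [c.2] at h
            rcases ((h1 p hp).1 j a).2.1 h.symm with c' | c'
            · exact hja c'.symm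
            · rw [c.1] at c'
              exact hjb ((add_right_cancel c').symm.trans hab)
        rcases (h2 p hp y hy).2 j0 j1 (Ne.symm hj1) hj0' hj1' with h | h
        · exact ⟨j0, key j0 j1 h.1 hj0' hj1'⟩
        · exact ⟨j1, key j1 j0 h.1 hj1' hj0'⟩
      · push Not at hex
        refine ⟨j0, fun j hj _ => lt_of_le_of_ne (hpos j) (Ne.symm (hex j hj))⟩
  obtain ⟨d, hd0, h, hd, hc⟩ := h6 p W hp hW i g hg
  obtain ⟨e, he⟩ := h7 p q W hp hW hq i g hg d h hd hc
  obtain ⟨f⟩ := h5 d hd
  refine ⟨e.trans f.toOpenPartialHomeomorph, ?_⟩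
  rw [OpenPartialHomeomorph.trans_source]
  refine ⟨he x ⟨g, hg, fun _ _ _ => rfl, y, hy, hi, hxy⟩, ?_⟩
  trivial

end Pool.Agent.H54.PMF
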