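import Pool.Agent.H54.PM.Targets

/-!
# MP_def5ca_co: row PO3
-/

set_option autoImplicit false

open Pool.Agent.H54.PM

namespace Pool.Agent.H54.PMF

theorem inv2 (a b c a' b' c' : ℝ) (hD : a * b' - a' * b ≠ 0) (f f' : ℝ × ℝ → ℝ)
    (hf : ∀ x, f x = a * x.1 + b * x.2 + c) (hf' : ∀ x, f' x = a' * x.1 + b' * x.2 + c') :
    ∃ A : ℝ × ℝ → ℝ × ℝ, Continuous A ∧ (∀ x, A (f x, f' x) = x) ∧
      ∀ y : ℝ × ℝ, f (A y) = y.1 ∧ f' (A y) = y.2 := by
  refine ⟨fun y => ((b' * (y.1 - c) - b * (y.2 - c')) / (a * b' - a' * b),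
    (a * (y.2 - c') - a' * (y.1 - c)) / (a * b' - a' * b)), ?_, fun x => ?_, fun y => ⟨?_, ?_⟩⟩
  · fun_prop
  · rw [hf, hf']
    refine Prod.ext ?_ ?_
    · show (b' * (a * x.1 + b * x.2 + c - c) - b * (a' * x.1 + b' * x.2 + c' - c')) /
        (a * b' - a' * b) = x.1
      rw [div_eq_iff hD]
      ring
    · show (a * (a' * x.1 + b' * x.2 + c' - c') - a' * (a * x.1 + b * x.2 + c - c)) /
        (a * b' - a' * b) = x.2
      rw [div_eq_iff hD]
      ring
  · rw [hf]
    show a * ((b' * (y.1 - c) - b * (y.2 - c')) / (a * b' - a' * b)) +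
      b * ((a * (y.2 - c') - a' * (y.1 - c)) / (a * b' - a' * b)) + c = y.1
    have h1 : a * ((b' * (y.1 - c) - b * (y.2 - c')) / (a * b' - a' * b)) +
        b * ((a * (y.2 - c') - a' * (y.1 - c)) / (a * b' - a' * b)) =
        (y.1 - c) * (a * b' - a' * b) / (a * b' - a' * b) := by ring
    rw [h1, mul_div_assoc, div_self hD]
    ring
  · rw [hf']
    show a' * ((b' * (y.1 - c) - b * (y.2 - c')) / (a * b' - a' * b)) +
      b' * ((a * (y.2 - c') - a' * (y.1 - c)) / (a * b' - a' * b)) + c' = y.2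
    have h1 : a' * ((b' * (y.1 - c) - b * (y.2 - c')) / (a * b' - a' * b)) +
        b' * ((a * (y.2 - c') - a' * (y.1 - c)) / (a * b' - a' * b)) =
        (y.2 - c') * (a * b' - a' * b) / (a * b' - a' * b) := by ring
    rw [h1, mul_div_assoc, div_self hD]
    ring

theorem pf_PO3 : T_PO3 := by
  intro p _ hp i
  have hp0 : (p : ℝ) ≥ 3 := by exact_mod_cast hp
  have hv : (i + 1).val = (i.val + 1) % p := by
    rw [Fin.val_add, Fin.val_one', Nat.add_mod_mod]
  by_cases h1 : i.val + 1 < p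
  · have h2 : (i + 1).val = i.val + 1 := by rw [hv, Nat.mod_eq_of_lt h1]
    have e1 : ∀ x : ℝ × ℝ, el i x = (-(2 * (i.val : ℝ) + 1)) * x.1 + 1 * x.2 +
        (i.val : ℝ) * (i.val + 1) := by
      intro x
      unfold el
      rw [if_pos h1]
      ring
    by_cases h3 : i.val + 1 + 1 < p
    · refine inv2 _ _ _ (-(2 * (i.val : ℝ) + 3)) 1 (((i.val : ℝ) + 1) * (i.val + 2)) ?_ _ _ e1 ?_
      · have : (-(2 * (i.val : ℝ) + 1)) * 1 - -(2 * (i.val : ℝ) + 3) * 1 = 2 := by ring
        rw [this]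
        norm_num
      · intro x
        unfold el
        rw [h2, if_pos h3]
        push_cast
        ring
    · have h4 : i.val + 2 = p := by omega
      have h4' : (p : ℝ) = i.val + 2 := by exact_mod_cast h4.symm
      refine inv2 _ _ _ ((p : ℝ) - 1) (-1) 0 ?_ _ _ e1 ?_
      · have : (-(2 * (i.val : ℝ) + 1)) * -1 - ((p : ℝ) - 1) * 1 = (p : ℝ) - 2 := by
          linarith
        rw [this]
        intro h5
        linarith
      · intro x
        unfold el
        rw [h2, if_neg h3]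
        ring
  · have h4 : i.val + 1 = p := by have := i.isLt; omega
    have h2 : (i + 1).val = 0 := by rw [hv, h4, Nat.mod_self]
    refine inv2 ((p : ℝ) - 1) (-1) 0 (-1) 1 0 ?_ _ _ ?_ ?_
    · have : ((p : ℝ) - 1) * 1 - -1 * -1 = (p : ℝ) - 2 := by ring
      rw [this]
      intro h5
      linarith
    · intro x
      unfold el
      rw [if_neg h1]
      ring
    · intro x
      unfold el
      rw [h2, if_pos (by omega)]
      push_cast
      ring

end Pool.Agent.H54.PMF
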