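import Pool.Agent.H54.PM.Targets
import Pool.Agent.H54.PMF.FIN
import Pool.Agent.H54.PMF.LOC
import Pool.Agent.H54.PMF.MFD
import Pool.Agent.H54.PMF.PO3
import Pool.Agent.H52.PMF.GLB
import Pool.Agent.H52.PMF.GLC
import Pool.Agent.H52.PMF.GLL
import Pool.Agent.H52.PMF.GLN
import Pool.Agent.H4.PMF.GLP
import Pool.Agent.H4.PMF.NOF
import Pool.Agent.H40.PMF.CU
import Pool.Agent.H40.PMF.RRC
import Pool.Agent.H40.PMF.RRG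
import Pool.Agent.H48.PMF.GEO
import Pool.Agent.H48.PMF.NG
import Pool.Agent.H48.PMF.ORF
import Pool.Agent.H48.PMF.RRB
import Pool.Agent.H48.PMF.SPL
import Pool.Agent.H16.PMF.ADD
import Pool.Agent.H16.PMF.NNB
import Pool.Agent.H74.PMF.DBG
import Pool.Agent.H61.PMF.CYC
import Pool.Agent.H61.PMF.PRJ
import Pool.Agent.H79.PMF.PO2
import Pool.Agent.H82.PMF.CNT
import Pool.Agent.H82.PMF.FAN
import Pool.Agent.H82.PMF.ORI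
import Pool.Agent.H86.PMF.TR1
import Pool.Agent.H86.PMF.TR2
import Pool.Agent.H86.PMF.TR3
import Pool.Agent.H86.PMF.TR4
import Pool.Agent.H13.PMF.TRF

/-!
# MP_def5ca_co: assembly of the rows of the board `pmf_modules`
-/

set_option autoImplicit false

open Pool.Agent.H54.PM

namespace Pool.Agent.H54.PMF

theorem a_GLL : T_GLL := Pool.Agent.H52.PMF.pf_GLL
theorem a_GLP : T_GLP := Pool.Agent.H4.PMF.pf_GLP
theorem a_GLN : T_GLN := Pool.Agent.H52.PMF.pf_GLN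
theorem a_GLC : T_GLC := Pool.Agent.H52.PMF.pf_GLC
theorem a_GLB : T_GLB := Pool.Agent.H52.PMF.pf_GLB
theorem a_CUG : T_CUG := Pool.Agent.H40.PMF.pf_CUG
theorem a_CUC : T_CUC := Pool.Agent.H40.PMF.pf_CUC
theorem a_ADD : T_ADD := Pool.Agent.H16.PMF.pf_ADD
theorem a_RRG : T_RRG := Pool.Agent.H40.PMF.pf_RRG
theorem a_RRC : T_RRC := Pool.Agent.H40.PMF.pf_RRC
theorem a_RRB : T_RRB := Pool.Agent.H48.PMF.pf_RRB
theorem a_DBG : T_DBG := Pool.Agent.H74.PMF.pf_DBG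
theorem a_SPL : T_SPL := Pool.Agent.H48.PMF.pf_SPL
theorem a_NG1 : T_NG1 := Pool.Agent.H48.PMF.pf_NG1 a_GLL a_GLP a_GLN a_GLC a_CUG a_CUC a_ADD a_RRG
  a_RRC a_RRB a_DBG a_SPL
theorem a_NG3 : T_NG3 := Pool.Agent.H48.PMF.pf_NG3 a_GLL a_GLP a_GLN a_GLC a_CUG a_CUC a_ADD a_RRG
  a_RRC a_RRB a_DBG
theorem a_NNB : T_NNB := Pool.Agent.H16.PMF.NNBx.pf_NNB
theorem a_ORF : T_ORF := Pool.Agent.H48.PMF.pf_ORF a_GLL a_GLP a_GLN a_GLC a_GLB a_CUG a_CUC a_ADD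
  a_RRG a_RRC a_RRB
theorem a_NOF : T_NOF := Pool.Agent.H4.PMF.pf_NOF a_GLL a_GLP a_GLN a_GLC a_CUG a_CUC a_ADD a_NG1
  a_NG3 a_NNB
theorem a_PRJ : T_PRJ := Pool.Agent.H61.PMF.pf_PRJ
theorem a_TR1 : T_TR1 := Pool.Agent.H86.PMF.pf_TR1
theorem a_TR2 : T_TR2 := Pool.Agent.H86.PMF.pf_TR2 a_TR1
theorem a_TR3 : T_TR3 := Pool.Agent.H86.PMF.pf_TR3 a_TR1
theorem a_TR4 : T_TR4 := Pool.Agent.H86.PMF.pf_TR4 a_TR1
theorem a_TRF : T_TRF := Pool.Agent.H13.PMF.pf_TRF a_PRJ a_TR1 a_TR2 a_TR3 a_TR4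
theorem a_FAN : T_FAN := Pool.Agent.H82.PMF.pf_FAN
theorem a_CYC : T_CYC := Pool.Agent.H61.PMF.pf_CYC

/-- the theorem from the five rows on the faces -/
theorem fin_of (h1 : T_PO1) (h4 : T_PTI) (h5 : T_GON) (h6 : T_EDG) (h7 : T_CPX) : T_FIN :=
  pf_FIN a_ORF a_NOF
    (Pool.Agent.H48.PMF.pf_GEO h5 h7
      (pf_MFD h1 (Pool.Agent.H79.PMF.pf_PO2 h1) h4 a_FAN a_CYC (pf_LOC h1 pf_PO3))
      (Pool.Agent.H82.PMF.pf_CNT h1 (Pool.Agent.H79.PMF.pf_PO2 h1) h4 h6)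
      (Pool.Agent.H82.PMF.pf_ORI h1 h4 h6)
      (Pool.Agent.H48.PMF.pf_CON h1 (Pool.Agent.H79.PMF.pf_PO2 h1) h4)) a_TRF

end Pool.Agent.H54.PMF
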